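import Pool.Agent.J4H89.LC.Pt

/-!
# Project LC (helper13), job BEZ: lines and curves
-/

set_option autoImplicit false

open MvPolynomial

namespace Pool.Agent.J4H89.LC

open Pool.Agent.J4H13.LA Pool.Agent.J4H13.LC

/-- restriction to the line `p + t q` -/
noncomputable def res (F : P3) (p q : V3) : Polynomial ℂ :=
  aeval (fun i => Polynomial.C (p i) + Polynomial.C (q i) * Polynomial.X) F

lemma eval_res (F : P3) (p q : V3) (t : ℂ) : (res F p q).eval t = eval (p + t • q) F := by
  have h : (Polynomial.evalRingHom t).comp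
      (aeval (fun i => Polynomial.C (p i) + Polynomial.C (q i) * Polynomial.X) :
        P3 →ₐ[ℂ] Polynomial ℂ).toRingHom = eval (p + t • q) := by
    apply MvPolynomial.ringHom_ext
    · intro c
      change Polynomial.eval t (aeval _ (C c)) = _
      rw [aeval_C, eval_C]
      exact Polynomial.eval_C
    · intro i
      change Polynomial.eval t (aeval _ (X i)) = _
      rw [aeval_X, eval_X, Polynomial.eval_add, Polynomial.eval_mul, Polynomial.eval_C,
        Polynomial.eval_C, Polynomial.eval_X, Pi.add_apply, Pi.smul_apply, smul_eq_mul]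
      ring
  exact RingHom.congr_fun h F

lemma natDegree_lin (a b : ℂ) :
    (Polynomial.C a + Polynomial.C b * Polynomial.X).natDegree ≤ 1 := by
  refine (Polynomial.natDegree_add_le _ _).trans ?_
  rw [Polynomial.natDegree_C]
  exact max_le (by omega) ((Polynomial.natDegree_C_mul_le _ _).trans Polynomial.natDegree_X_le)

lemma coeff_lin' (a b : ℂ) :
    (Polynomial.C a + Polynomial.C b * Polynomial.X).coeff 1 = b := by
  rw [Polynomial.coeff_add, Polynomial.coeff_C_mul, Polynomial.coeff_X_one, mul_one,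
    Polynomial.coeff_C, if_neg one_ne_zero, zero_add]

lemma pow_lin (a b : ℂ) (n : ℕ) :
    ((Polynomial.C a + Polynomial.C b * Polynomial.X) ^ n).natDegree ≤ n ∧
      ((Polynomial.C a + Polynomial.C b * Polynomial.X) ^ n).coeff n = b ^ n := by
  constructor
  · refine Polynomial.natDegree_pow_le.trans ?_
    calc n * (Polynomial.C a + Polynomial.C b * Polynomial.X).natDegree ≤ n * 1 :=
          Nat.mul_le_mul_left _ (natDegree_lin a b)
      _ = n := mul_one n
  · have := Polynomial.coeff_pow_of_natDegree_le (m := n) (natDegree_lin a b)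
    rw [mul_one] at this
    rw [this, coeff_lin']

lemma res_homog {F : P3} {e : ℕ} (hF : F.IsHomogeneous e) (p q : V3) :
    (res F p q).natDegree ≤ e ∧ (res F p q).coeff e = eval q F := by
  have hsum : res F p q = ∑ s ∈ F.support, Polynomial.C (coeff s F) *
      ∏ i, (Polynomial.C (p i) + Polynomial.C (q i) * Polynomial.X) ^ s i := by
    unfold res
    rw [aeval_def, eval₂_eq']
    rfl
  have hmon : ∀ s ∈ F.support,
      (∏ i, (Polynomial.C (p i) + Polynomial.C (q i) * Polynomial.X) ^ s i).natDegree ≤ e ∧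
      (∏ i, (Polynomial.C (p i) + Polynomial.C (q i) * Polynomial.X) ^ s i).coeff e =
        ∏ i, q i ^ s i := by
    intro s hs
    have hdeg : s 0 + s 1 + s 2 = e := by
      have h1 := hF (mem_support_iff.1 hs)
      rw [← h1]
      have h2 : Finsupp.weight 1 s = s.degree :=
        (DFunLike.congr_fun Finsupp.degree_eq_weight_one s).symm
      rw [h2, Finsupp.degree_eq_sum, Fin.sum_univ_three]
    rw [Fin.prod_univ_three, Fin.prod_univ_three]
    obtain ⟨a0, b0⟩ := pow_lin (p 0) (q 0) (s 0)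
    obtain ⟨a1, b1⟩ := pow_lin (p 1) (q 1) (s 1)
    obtain ⟨a2, b2⟩ := pow_lin (p 2) (q 2) (s 2)
    have a01 := Polynomial.natDegree_mul_le_of_le a0 a1
    have b01 := Polynomial.coeff_mul_add_eq_of_natDegree_le a0 a1
    rw [← hdeg]
    constructor
    · exact Polynomial.natDegree_mul_le_of_le a01 a2
    · rw [Polynomial.coeff_mul_add_eq_of_natDegree_le a01 a2, b01, b0, b1, b2]
  rw [hsum]
  constructor
  · refine Polynomial.natDegree_sum_le_of_forall_le _ _ fun s hs => ?_
    exact (Polynomial.natDegree_C_mul_le _ _).trans (hmon s hs).1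
  · rw [Polynomial.finsetSum_coeff, eval_eq']
    refine Finset.sum_congr rfl fun s hs => ?_
    rw [Polynomial.coeff_C_mul, (hmon s hs).2]

/-- a polynomial which vanishes on a line is divisible by its equation -/
lemma lin_dvd_of_forall {F : P3} {l : V3} (hl : l ≠ 0)
    (h : ∀ p : V3, ∑ i, l i * p i = 0 → eval p F = 0) : lin l ∣ F := by
  classical
  obtain ⟨i, hi⟩ : ∃ i, l i ≠ 0 := by
    by_contra hcon
    push Not at hcon
    exact hl (funext hcon)
  let ρ : P3 →ₐ[ℂ] P3 := aeval (fun j => if j = i then X i - C ((l i)⁻¹) * lin l else X j)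
  have h1 : F - ρ F ∈ Ideal.span {lin l} := by
    rw [← Ideal.Quotient.eq]
    have h2 : (Ideal.Quotient.mk (Ideal.span {lin l})) =
        (Ideal.Quotient.mk (Ideal.span {lin l})).comp ρ.toRingHom := by
      apply MvPolynomial.ringHom_ext
      · intro c
        change _ = Ideal.Quotient.mk _ (ρ (C c))
        have : ρ (C c) = C c := ρ.commutes c
        rw [this]
      · intro j
        change _ = Ideal.Quotient.mk _ (ρ (X j))
        have h3 : ρ (X j) = if j = i then X i - C ((l i)⁻¹) * lin l else X j := aeval_X _ j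
        rw [h3]
        by_cases hj : j = i
        · rw [if_pos hj, Ideal.Quotient.eq, hj, sub_sub_cancel]
          exact Ideal.mul_mem_left _ _ (Ideal.mem_span_singleton_self _)
        · rw [if_neg hj]
    exact RingHom.congr_fun h2 F
  have h4 : ρ F = 0 := by
    apply MvPolynomial.funext
    intro p
    rw [map_zero]
    let p' : V3 := fun j => if j = i then p i - (l i)⁻¹ * ∑ k, l k * p k else p j
    have h5 : (eval p).comp ρ.toRingHom = eval p' := by
      apply MvPolynomial.ringHom_ext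
      · intro c
        change eval p (ρ (C c)) = _
        have : ρ (C c) = C c := ρ.commutes c
        rw [this, eval_C, eval_C]
      · intro j
        change eval p (ρ (X j)) = _
        have h3 : ρ (X j) = if j = i then X i - C ((l i)⁻¹) * lin l else X j := aeval_X _ j
        rw [h3, eval_X]
        change _ = if j = i then p i - (l i)⁻¹ * ∑ k, l k * p k else p j
        by_cases hj : j = i
        · rw [if_pos hj, if_pos hj, map_sub, map_mul, eval_X, eval_C, eval_lin]
        · rw [if_neg hj, if_neg hj, eval_X]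
    have h6 : eval p (ρ F) = eval p' F := RingHom.congr_fun h5 F
    rw [h6]
    apply h
    have h7 : ∀ j, l j * p' j = l j * p j - if j = i then ∑ k, l k * p k else 0 := by
      intro j
      change l j * (if j = i then p i - (l i)⁻¹ * ∑ k, l k * p k else p j) = _
      by_cases hj : j = i
      · rw [if_pos hj, if_pos hj, hj, mul_sub, ← mul_assoc, mul_inv_cancel₀ hi, one_mul]
      · rw [if_neg hj, if_neg hj, sub_zero]
    rw [Finset.sum_congr rfl fun j _ => h7 j, Finset.sum_sub_distrib, Finset.sum_ite_eq',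
      if_pos (Finset.mem_univ i), sub_self]
  rw [h4, sub_zero, Ideal.mem_span_singleton] at h1
  exact h1

lemma mem_pw_comm {l p : V3} (h : l ∈ pw p) : p ∈ pw l := by
  rw [mem_pw] at h ⊢
  rw [← h]
  exact Finset.sum_congr rfl fun i _ => mul_comm _ _

/-- the other points of the line through `p₁` -/
lemma exists_second {l p₁ : V3} (hl : l ≠ 0) (hp₁ : p₁ ≠ 0) (h₁ : p₁ ∈ pw l) :
    ∃ p₂ : V3, p₂ ∈ pw l ∧ LinearIndependent ℂ ![p₁, p₂] ∧
      ∀ p ∈ pw l, ∃ a b : ℂ, a • p₁ + b • p₂ = p := by
  have hlt : Submodule.span ℂ {p₁} < pw l := by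
    apply lt_of_le_of_ne
    · rw [Submodule.span_singleton_le_iff_mem]
      exact h₁
    · intro h
      have h2 := finrank_pw hl
      rw [← h, finrank_span_singleton hp₁] at h2
      omega
  obtain ⟨p₂, hp₂, hn⟩ := SetLike.exists_of_lt hlt
  have hli : LinearIndependent ℂ ![p₁, p₂] := by
    rw [LinearIndependent.pair_iff' hp₁]
    intro a ha
    exact hn (Submodule.mem_span_singleton.2 ⟨a, ha⟩)
  refine ⟨p₂, hp₂, hli, ?_⟩
  have hspan : Submodule.span ℂ {p₁, p₂} = pw l := by
    apply Submodule.eq_of_le_of_finrank_le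
    · rw [Submodule.span_le]
      intro x hx
      rcases hx with rfl | hx
      · exact h₁
      · rw [Set.mem_singleton_iff] at hx
        rw [hx]
        exact hp₂
    · have h1 := finrank_span_eq_card hli
      have h2 : Set.range ![p₁, p₂] = {p₁, p₂} := by
        rw [Matrix.range_cons, Matrix.range_cons, Matrix.range_empty, Set.union_empty]
        rfl
      rw [h2, Fintype.card_fin] at h1
      rw [h1, finrank_pw hl]
  intro p hp
  rw [← hspan] at hp
  exact Submodule.mem_span_pair.1 hp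

lemma eval_smul_homog {F : P3} {e : ℕ} (hF : F.IsHomogeneous e) (a : ℂ) (p : V3) :
    eval (a • p) F = a ^ e * eval p F := by
  rw [eval_eq', eval_eq', Finset.mul_sum]
  refine Finset.sum_congr rfl fun s hs => ?_
  have hdeg : s 0 + s 1 + s 2 = e := by
    have h1 := hF (mem_support_iff.1 hs)
    rw [← h1]
    have h2 : Finsupp.weight 1 s = s.degree :=
      (DFunLike.congr_fun Finsupp.degree_eq_weight_one s).symm
    rw [h2, Finsupp.degree_eq_sum, Fin.sum_univ_three]
  rw [Fin.prod_univ_three, Fin.prod_univ_three]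
  simp only [Pi.smul_apply, smul_eq_mul]
  rw [← hdeg]
  ring

lemma bez_le {F : P3} {e : ℕ} (hF : F.IsHomogeneous e) {l : V3} (hl : l ≠ 0)
    (hd : ¬ lin l ∣ F) (s : Finset (Submodule ℂ V3))
    (hs : ∀ W ∈ s, Module.finrank ℂ W = 2 ∧ l ∈ W ∧ F ∈ IW W) : s.card ≤ e := by
  classical
  obtain ⟨p₁, h1l, h1F⟩ : ∃ p₁ : V3, p₁ ∈ pw l ∧ eval p₁ F ≠ 0 := by
    by_contra hcon
    push Not at hcon
    exact hd (lin_dvd_of_forall hl fun p hp => hcon p (mem_pw_comm (l := l) hp))
  have hF0 : F ≠ 0 := by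
    rintro rfl
    exact hd (dvd_zero _)
  rcases Nat.eq_zero_or_pos e with rfl | he
  · -- constants
    rw [Nat.le_zero, Finset.card_eq_zero]
    rw [Finset.eq_empty_iff_forall_notMem]
    intro W hW
    obtain ⟨h2, -, h4⟩ := hs W hW
    obtain ⟨p, hp, rfl⟩ := exists_pw h2
    have h5 := eval_eq_zero_of_mem h4
    have h6 : F = C (coeff 0 F) := by
      rw [← totalDegree_eq_zero_iff_eq_C]
      exact Nat.le_zero.1 hF.totalDegree_le
    rw [h6, eval_C] at h5
    rw [h5, C_0] at h6
    exact hF0 h6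
  have hp₁ : p₁ ≠ 0 := by
    rintro rfl
    exact h1F (eval_zero_of_homog he hF)
  obtain ⟨p₂, h2l, hli, hspan⟩ := exists_second hl hp₁ h1l
  obtain ⟨hdeg, hcoef⟩ := res_homog hF p₂ p₁
  have hr0 : res F p₂ p₁ ≠ 0 := by
    intro h0
    rw [h0, Polynomial.coeff_zero] at hcoef
    exact h1F hcoef.symm
  have hsub : s ⊆ (res F p₂ p₁).roots.toFinset.image fun t => pw (p₂ + t • p₁) := by
    intro W hW
    obtain ⟨h2, h3, h4⟩ := hs W hW
    obtain ⟨p, hp, rfl⟩ := exists_pw h2
    have h5 := eval_eq_zero_of_mem h4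
    obtain ⟨a, b, hab⟩ := hspan p (mem_pw_comm h3)
    have hb : b ≠ 0 := by
      rintro rfl
      rw [zero_smul, add_zero] at hab
      rw [← hab, eval_smul_homog hF] at h5
      have ha : a = 0 := by
        rcases mul_eq_zero.1 h5 with h | h
        · exact pow_eq_zero_iff (by omega) |>.1 h
        · exact absurd h h1F
      apply hp
      rw [← hab, ha, zero_smul]
    have h6 : p = b • (p₂ + (b⁻¹ * a) • p₁) := by
      rw [← hab, smul_add, smul_smul, ← mul_assoc, mul_inv_cancel₀ hb, one_mul, add_comm]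
    rw [Finset.mem_image]
    refine ⟨b⁻¹ * a, ?_, ?_⟩
    · rw [Multiset.mem_toFinset, Polynomial.mem_roots hr0, Polynomial.IsRoot.def, eval_res]
      rw [h6, eval_smul_homog hF] at h5
      exact (mul_eq_zero.1 h5).resolve_left (pow_ne_zero _ hb)
    · rw [h6, pw_smul hb]
  calc s.card ≤ ((res F p₂ p₁).roots.toFinset.image fun t => pw (p₂ + t • p₁)).card :=
        Finset.card_le_card hsub
    _ ≤ (res F p₂ p₁).roots.toFinset.card := Finset.card_image_le
    _ ≤ Multiset.card (res F p₂ p₁).roots := Multiset.toFinset_card_le _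
    _ ≤ (res F p₂ p₁).natDegree := Polynomial.card_roots' _
    _ ≤ e := hdeg

lemma bez_exists {F : P3} {e : ℕ} (he : 1 ≤ e) (hF : F.IsHomogeneous e) {l : V3} (hl : l ≠ 0) :
    ∃ p : V3, p ≠ 0 ∧ l ∈ pw p ∧ eval p F = 0 := by
  classical
  have hne : pw l ≠ ⊥ := by
    intro h
    have := finrank_pw hl
    rw [h, finrank_bot] at this
    omega
  obtain ⟨p₁, h1l, hp₁⟩ := (Submodule.ne_bot_iff _).1 hne
  obtain ⟨p₂, h2l, hli, -⟩ := exists_second hl hp₁ h1l
  by_cases h1F : eval p₁ F = 0
  · exact ⟨p₁, hp₁, mem_pw_comm h1l, h1F⟩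
  obtain ⟨hdeg, hcoef⟩ := res_homog hF p₂ p₁
  obtain ⟨t, ht⟩ := IsAlgClosed.exists_root (res F p₂ p₁) (by
    intro h0
    have h1 : (res F p₂ p₁).natDegree = 0 := Polynomial.natDegree_eq_zero_iff_degree_le_zero.2 h0.le
    rw [Polynomial.coeff_eq_zero_of_natDegree_lt (by omega)] at hcoef
    exact h1F hcoef.symm)
  rw [Polynomial.IsRoot.def, eval_res] at ht
  refine ⟨p₂ + t • p₁, ?_, ?_, ht⟩
  · intro h0
    have := (LinearIndependent.pair_iff.1 hli) t 1 (by rw [one_smul, add_comm]; exact h0)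
    exact one_ne_zero this.2
  · exact mem_pw_comm ((pw l).add_mem h2l ((pw l).smul_mem _ h1l))

lemma bez_inf_aux {F : P3} {e : ℕ} (he : 1 ≤ e) (hF : F.IsHomogeneous e) (hF0 : F ≠ 0)
    (s : Finset (Submodule ℂ V3)) :
    ∃ W : Submodule ℂ V3, W ∉ s ∧ Module.finrank ℂ W = 2 ∧ F ∈ IW W := by
  classical
  obtain ⟨o, ho⟩ : ∃ o : V3, eval o F ≠ 0 := by
    by_contra hcon
    push Not at hcon
    apply hF0
    apply MvPolynomial.funext
    intro p
    rw [hcon p, map_zero]
  have ho0 : o ≠ 0 := by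
    rintro rfl
    exact ho (eval_zero_of_homog he hF)
  have hne : pw o ≠ ⊥ := by
    intro h
    have := finrank_pw ho0
    rw [h, finrank_bot] at this
    omega
  obtain ⟨l₁, h1o, hl₁⟩ := (Submodule.ne_bot_iff _).1 hne
  obtain ⟨l₂, h2o, hli, hspan⟩ := exists_second ho0 hl₁ h1o
  have hlt : ∀ t : ℂ, l₂ + t • l₁ ≠ 0 := by
    intro t h0
    have := (LinearIndependent.pair_iff.1 hli) t 1 (by rw [one_smul, add_comm]; exact h0)
    exact one_ne_zero this.2
  choose p hp0 hpl hpF using fun t : ℂ => bez_exists he hF (hlt t)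
  have hinj : Function.Injective fun t => pw (p t) := by
    intro t t' htt
    by_contra hne'
    have h1 : l₂ + t' • l₁ ∈ pw (p t) := by
      have : pw (p t) = pw (p t') := htt
      rw [this]
      exact hpl t'
    have h2 : (t - t') • l₁ ∈ pw (p t) := by
      have := (pw (p t)).sub_mem (hpl t) h1
      rwa [add_sub_add_left_eq_sub, ← sub_smul] at this
    have h3 : l₁ ∈ pw (p t) := ((pw (p t)).smul_mem_iff (sub_ne_zero.2 hne')).1 h2
    have h4 : l₂ ∈ pw (p t) := by
      have := (pw (p t)).sub_mem (hpl t) ((pw (p t)).smul_mem t h3)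
      rwa [add_sub_cancel_right] at this
    have h5 : pw o = pw (p t) := by
      apply Submodule.eq_of_le_of_finrank_le
      · intro w hw
        obtain ⟨a, b, rfl⟩ := hspan w hw
        exact (pw (p t)).add_mem ((pw (p t)).smul_mem _ h3) ((pw (p t)).smul_mem _ h4)
      · rw [finrank_pw ho0, finrank_pw (hp0 t)]
    obtain ⟨a, ha, hpa⟩ := eq_smul_of_pw_eq ho0 (hp0 t) h5
    have h6 := hpF t
    rw [hpa, eval_smul_homog hF] at h6
    rcases mul_eq_zero.1 h6 with h | h
    · exact pow_ne_zero _ ha h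
    · exact ho h
  obtain ⟨W, ⟨t, rfl⟩, hW⟩ := (Set.infinite_range_of_injective hinj).exists_notMem_finset s
  exact ⟨_, hW, finrank_pw (hp0 t), (mem_iff_eval he hF (hp0 t)).2 (hpF t)⟩

/-- **BEZ** -/
theorem t_BEZ : S_BEZ := by
  refine ⟨fun F e hF l hl hd s hs => bez_le hF hl hd s hs, ?_, ?_⟩
  · intro F e he hF l hl
    obtain ⟨p, hp, hlp, hpF⟩ := bez_exists he hF hl
    exact ⟨pw p, finrank_pw hp, hlp, (mem_iff_eval he hF hp).2 hpF⟩
  · intro F e he hF s
    by_cases hF0 : F = 0
    · obtain ⟨W, h1, h2, -⟩ := bez_inf_aux (F := X 0) (e := 1) le_rfl (isHomogeneous_X ℂ 0)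
        (X_ne_zero 0) s
      exact ⟨W, h1, h2, by rw [hF0]; exact (IW W).zero_mem⟩
    · exact bez_inf_aux he hF hF0 s

end Pool.Agent.J4H89.LC
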