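import Pool.Agent.J4H89.LC.Bez

/-!
# Project LC (helper13), job NICE: smooth curves
-/

set_option autoImplicit false

open MvPolynomial

namespace Pool.Agent.J4H89.LC

open Pool.Agent.J4H13.LA Pool.Agent.J4H13.LC

lemma pderiv_homog {F : P3} {e : ℕ} (hF : F.IsHomogeneous e) (i : Fin 3) :
    (pderiv i F).IsHomogeneous (e - 1) := by
  classical
  rw [F.as_sum, map_sum]
  apply IsHomogeneous.sum
  intro s hs
  rw [pderiv_monomial]
  by_cases h0 : s i = 0
  · rw [h0, Nat.cast_zero, mul_zero, monomial_zero]
    exact isHomogeneous_zero _ _ _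
  · apply isHomogeneous_monomial
    have hdeg : s.degree = e := by
      have h1 := hF (mem_support_iff.1 hs)
      rw [← h1]
      exact DFunLike.congr_fun Finsupp.degree_eq_weight_one s
    have h2 : s = (s - Finsupp.single i 1) + Finsupp.single i 1 := by
      ext j
      rw [Finsupp.add_apply, Finsupp.tsub_apply]
      by_cases hj : i = j
      · subst hj
        rw [Finsupp.single_eq_same]
        omega
      · rw [Finsupp.single_eq_of_ne (Ne.symm hj)]
        omega
    have h3 := congrArg Finsupp.degree h2
    rw [map_add, Finsupp.degree_single, hdeg] at h3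
    omega

/-- **NICE** -/
theorem t_NICE : S_NICE := by
  intro F e he hF hS
  refine ⟨?_, ?_⟩
  · rintro w hw ⟨G, hG⟩
    obtain ⟨i, hi⟩ : ∃ i, w i ≠ 0 := by
      by_contra hcon
      push Not at hcon
      exact hw (funext hcon)
    obtain ⟨p, hp, hwp, hpF⟩ := bez_exists (by omega) (pderiv_homog hF i) hw
    have hlw : eval p (lin w) = 0 := by
      rw [eval_lin]
      exact hwp
    have hder : ∀ j, eval p (pderiv j F) = w j * eval p G := by
      intro j
      have h1 : pderiv j (lin w) = C (w j) := by
        unfold lin
        rw [map_sum, Finset.sum_eq_single j]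
        · rw [pderiv_C_mul, pderiv_X_self, mul_one]
        · intro k _ hk
          rw [pderiv_C_mul, pderiv_X_of_ne hk, mul_zero]
        · intro h
          exact absurd (Finset.mem_univ j) h
      rw [hG, Derivation.leibniz, h1, map_add, smul_eq_mul, smul_eq_mul, map_mul, map_mul, hlw,
        zero_mul, zero_add, eval_C, mul_comm]
    have hG0 : eval p G = 0 := by
      rw [hder i] at hpF
      exact (mul_eq_zero.1 hpF).resolve_left hi
    obtain ⟨j, hj⟩ := hS p hp (by rw [hG, map_mul, hlw, zero_mul])
    apply hj
    rw [hder j, hG0, mul_zero]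
  · intro j
    have hrad : (X j : P3) ∈ (Ideal.span (Set.range fun i => pderiv i F)).radical := by
      rw [← vanishingIdeal_zeroLocus_eq_radical (K := ℂ)]
      intro p hp
      have h0 : p = 0 := by
        by_contra hne
        have hz : ∀ i, eval p (pderiv i F) = 0 := by
          intro i
          have := hp (pderiv i F) (Ideal.subset_span ⟨i, rfl⟩)
          rwa [aeval_eq_eval] at this
        have hE := congrArg (eval p) hF.sum_X_mul_pderiv
        rw [map_sum, Finset.sum_eq_zero, map_nsmul, nsmul_eq_mul] at hE
        · have h1 : eval p F = 0 := by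
            have h2 : (e : ℂ) ≠ 0 := Nat.cast_ne_zero.2 (by omega)
            exact (mul_eq_zero.1 hE.symm).resolve_left h2
          obtain ⟨i, hi⟩ := hS p hne h1
          exact hi (hz i)
        · intro i _
          rw [map_mul, hz i, mul_zero]
      rw [aeval_X, h0]
      rfl
    exact hrad

end Pool.Agent.J4H89.LC
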