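import Pool.Agent.J4H13.LC.Jobs

/-!
# Project LC (helper13), job PT: points of the plane as vectors and as subspaces
-/

set_option autoImplicit false

open MvPolynomial

namespace Pool.Agent.J4H89.LC

open Pool.Agent.J4H13.LA Pool.Agent.J4H13.LC

/-- the pairing with `p` -/
noncomputable def phi (p : V3) : V3 →ₗ[ℂ] ℂ := ∑ i, p i • LinearMap.proj i

lemma phi_apply (p w : V3) : phi p w = ∑ i, w i * p i := by
  unfold phi
  rw [LinearMap.sum_apply]
  refine Finset.sum_congr rfl fun i _ => ?_
  rw [LinearMap.smul_apply, LinearMap.proj_apply, smul_eq_mul, mul_comm]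

lemma ker_phi (p : V3) : LinearMap.ker (phi p) = pw p := by
  ext w
  rw [LinearMap.mem_ker, phi_apply]
  rfl

lemma mem_pw {p w : V3} : w ∈ pw p ↔ ∑ i, w i * p i = 0 := Iff.rfl

lemma phi_ne_zero {p : V3} (hp : p ≠ 0) : phi p ≠ 0 := by
  intro h
  apply hp
  funext i
  have h1 := LinearMap.congr_fun h (Pi.single i 1)
  rw [phi_apply, Finset.sum_eq_single i] at h1
  · rw [Pi.single_eq_same, one_mul] at h1
    exact h1
  · intro j _ hj
    rw [Pi.single_eq_of_ne hj, zero_mul]
  · intro h2
    exact absurd (Finset.mem_univ i) h2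

lemma finrank_pw {p : V3} (hp : p ≠ 0) : Module.finrank ℂ (pw p) = 2 := by
  have h1 := Module.Dual.finrank_ker_add_one_of_ne_zero (f := phi p) (phi_ne_zero hp)
  rw [ker_phi] at h1
  have h2 : Module.finrank ℂ V3 = 3 := by simp
  omega

lemma exists_pw {W : Submodule ℂ V3} (hW : Module.finrank ℂ W = 2) :
    ∃ p : V3, p ≠ 0 ∧ W = pw p := by
  have h3 : Module.finrank ℂ V3 = 3 := by simp
  have hlt : W < ⊤ := by
    rw [lt_top_iff_ne_top]
    rintro rfl
    rw [finrank_top] at hW
    omega
  obtain ⟨f, hf0, hf⟩ := Submodule.exists_le_ker_of_lt_top W hlt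
  have hfp : f = phi (fun i => f (Pi.single i 1)) := by
    apply LinearMap.pi_ext'
    intro i
    apply LinearMap.ext_ring
    rw [LinearMap.comp_apply, LinearMap.comp_apply, phi_apply, LinearMap.single_apply,
      Finset.sum_eq_single i]
    · rw [Pi.single_eq_same, one_mul]
    · intro j _ hj
      rw [Pi.single_eq_of_ne hj, zero_mul]
    · intro h2
      exact absurd (Finset.mem_univ i) h2
  have hp0 : (fun i => f (Pi.single i 1)) ≠ (0 : V3) := by
    intro h
    apply hf0
    rw [hfp, h]
    apply LinearMap.ext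
    intro w
    rw [phi_apply]
    simp
  refine ⟨_, hp0, ?_⟩
  apply Submodule.eq_of_le_of_finrank_le
  · rw [← ker_phi, ← hfp]
    exact hf
  · rw [finrank_pw hp0, hW]

lemma eval_lin (p w : V3) : eval p (lin w) = ∑ i, w i * p i := by
  unfold lin
  rw [map_sum]
  refine Finset.sum_congr rfl fun i _ => ?_
  rw [map_mul, eval_C, eval_X]

lemma IW_pw_le (p : V3) : IW (pw p) ≤ RingHom.ker (eval p) := by
  unfold IW
  rw [Ideal.span_le]
  rintro _ ⟨w, hw, rfl⟩
  change eval p (lin w) = 0
  rw [eval_lin]
  exact hw

lemma eval_eq_zero_of_mem {p : V3} {P : P3} (h : P ∈ IW (pw p)) : eval p P = 0 :=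
  IW_pw_le p h

/-- a homogeneous polynomial of positive degree vanishes at the origin -/
lemma eval_zero_of_homog {σ : Type} {P : MvPolynomial σ ℂ} {e : ℕ} (he : 1 ≤ e)
    (hP : P.IsHomogeneous e) : eval (0 : σ → ℂ) P = 0 := by
  rw [eval_zero, constantCoeff_eq]
  by_contra hne
  have := hP.coeff_eq_zero (d := 0) (by rw [map_zero]; omega)
  exact hne this

lemma mem_iff_eval {F : P3} {e : ℕ} (_he : 1 ≤ e) (hC : F.IsHomogeneous e) {p : V3}
    (hp : p ≠ 0) : F ∈ IW (pw p) ↔ eval p F = 0 := by
  classical
  constructor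
  · exact eval_eq_zero_of_mem
  · intro hev
    obtain ⟨a, b, hab, ha, hb⟩ : ∃ a b : V3, LinearIndependent ℂ ![a, b] ∧ a ∈ pw p ∧
        b ∈ pw p := by
      let B := Module.finBasisOfFinrankEq ℂ (pw p) (finrank_pw hp)
      refine ⟨B 0, B 1, ?_, (B 0).2, (B 1).2⟩
      have h1 := B.linearIndependent.map' (pw p).subtype (pw p).ker_subtype
      have h2 : (⇑(pw p).subtype ∘ ⇑B) = ![(B 0 : V3), (B 1 : V3)] := by
        funext i
        fin_cases i <;> rfl
      rwa [h2] at h1
    obtain ⟨β, γ, hβγ, h1, h2, h3⟩ := exists_coord hab ha hb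
    -- the evaluation in the new coordinates
    let q : V3 := fun j => eval p (β (X j))
    have hq1 : q 1 = 0 := eval_eq_zero_of_mem h1
    have hq2 : q 2 = 0 := eval_eq_zero_of_mem h2
    have hcomp : ∀ P, eval p (β P) = eval q P := by
      intro P
      have h4 : (eval p).comp β.toRingHom = eval q := by
        apply MvPolynomial.ringHom_ext
        · intro c
          change eval p (β (C c)) = _
          have : β (C c) = C c := β.commutes c
          rw [this, eval_C, eval_C]
        · intro i
          rw [eval_X]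
          rfl
      exact RingHom.congr_fun h4 P
    have hq0 : q 0 ≠ 0 := by
      intro h0
      have hq : q = 0 := by
        funext i
        fin_cases i
        · exact h0
        · exact hq1
        · exact hq2
      apply hp
      funext i
      have h5 : eval p (β (γ (X i))) = eval q (γ (X i)) := hcomp _
      rw [hβγ, eval_X, hq, eval_zero_of_homog le_rfl (h3 _ 1 (isHomogeneous_X ℂ i))] at h5
      exact h5
    have hres : F ∈ IW (pw p) ^ 1 := by
      refine mem_pow_of_coeff hβγ h1 h2 h3 hC ?_
      rintro ⟨k, a', b'⟩ hx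
      unfold tri at hx
      rw [Finset.mem_sigma, Finset.mem_range, Finset.HasAntidiagonal.mem_antidiagonal] at hx
      have hk : k < 1 := hx.1
      have hk' : a' + b' = k := hx.2
      obtain rfl : a' = 0 := by omega
      obtain rfl : b' = 0 := by omega
      change coeff (expo e 0 0) (γ F) = 0
      have h6 : eval q (γ F) = coeff (expo e 0 0) (γ F) * q 0 ^ e := by
        rw [eval_eq']
        rw [Finset.sum_eq_single (expo e 0 0)]
        · rw [Fin.prod_univ_three, expo_zero, expo_one, expo_two, pow_zero, pow_zero, mul_one,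
            mul_one, Nat.sub_zero, Nat.sub_zero]
        · intro s hs hne
          have hs0 : coeff s (γ F) ≠ 0 := mem_support_iff.1 hs
          have hdeg : s.degree = e := by
            have := h3 F e hC hs0
            rw [← this]
            exact DFunLike.congr_fun Finsupp.degree_eq_weight_one s
          rw [Fin.prod_univ_three, hq1, hq2]
          have : s 1 ≠ 0 ∨ s 2 ≠ 0 := by
            by_contra hcon
            push Not at hcon
            apply hne
            rw [eq_expo hdeg, hcon.1, hcon.2]
          rcases this with h | h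
          · rw [zero_pow h, mul_zero, zero_mul, mul_zero]
          · rw [zero_pow h, mul_zero, mul_zero]
        · intro hns
          rw [notMem_support_iff.1 hns, zero_mul]
      have h7 : eval q (γ F) = 0 := by
        rw [← hcomp, hβγ, hev]
      rw [h6] at h7
      exact (mul_eq_zero.1 h7).resolve_right (pow_ne_zero _ hq0)
    rwa [pow_one] at hres

lemma pw_smul {p : V3} {a : ℂ} (ha : a ≠ 0) : pw (a • p) = pw p := by
  ext w
  rw [mem_pw, mem_pw]
  have : ∑ i, w i * (a • p) i = a * ∑ i, w i * p i := by
    rw [Finset.mul_sum]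
    refine Finset.sum_congr rfl fun i _ => ?_
    rw [Pi.smul_apply, smul_eq_mul]
    ring
  rw [this]
  constructor
  · intro h
    exact (mul_eq_zero.1 h).resolve_left ha
  · intro h
    rw [h, mul_zero]

lemma eq_smul_of_pw_eq {p q : V3} (hp : p ≠ 0) (hq : q ≠ 0) (h : pw p = pw q) :
    ∃ a : ℂ, a ≠ 0 ∧ q = a • p := by
  classical
  obtain ⟨i, hi⟩ : ∃ i, p i ≠ 0 := by
    by_contra hcon
    push Not at hcon
    exact hp (funext hcon)
  have key : ∀ j, q j = q i / p i * p j := by
    intro j
    have h1 : (p j • (Pi.single i (1 : ℂ) : V3) - p i • (Pi.single j (1 : ℂ) : V3)) ∈ pw p := by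
      rw [← ker_phi, LinearMap.mem_ker, map_sub, map_smul, map_smul, phi_apply, phi_apply]
      rw [Finset.sum_eq_single i, Finset.sum_eq_single j]
      · rw [Pi.single_eq_same, Pi.single_eq_same, one_mul, one_mul, smul_eq_mul, smul_eq_mul]
        ring
      · intro k _ hk
        rw [Pi.single_eq_of_ne hk, zero_mul]
      · intro h2
        exact absurd (Finset.mem_univ j) h2
      · intro k _ hk
        rw [Pi.single_eq_of_ne hk, zero_mul]
      · intro h2
        exact absurd (Finset.mem_univ i) h2
    rw [h, ← ker_phi, LinearMap.mem_ker, map_sub, map_smul, map_smul, phi_apply, phi_apply] at h1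
    rw [Finset.sum_eq_single i, Finset.sum_eq_single j] at h1
    · rw [Pi.single_eq_same, Pi.single_eq_same, one_mul, one_mul, smul_eq_mul, smul_eq_mul] at h1
      field_simp
      linear_combination -h1
    · intro k _ hk
      rw [Pi.single_eq_of_ne hk, zero_mul]
    · intro h2
      exact absurd (Finset.mem_univ j) h2
    · intro k _ hk
      rw [Pi.single_eq_of_ne hk, zero_mul]
    · intro h2
      exact absurd (Finset.mem_univ i) h2
  refine ⟨q i / p i, ?_, funext key⟩
  intro h0
  apply hq
  funext j
  rw [key j, h0, zero_mul]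
  rfl

/-- **PT** -/
theorem t_PT : S_PT := by
  refine ⟨fun p hp => finrank_pw hp, fun W hW => exists_pw hW,
    fun C e he hC p hp => mem_iff_eval he hC hp, fun p q hp hq => ⟨eq_smul_of_pw_eq hp hq, ?_⟩⟩
  rintro ⟨a, ha, rfl⟩
  exact (pw_smul ha).symm

end Pool.Agent.J4H89.LC
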