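import Pool.Agent.J4H64.LC.Quad
import Pool.Agent.J4H89.LC.Pt

/-!
# Project LC (helper13), job RAT: all the lines pass through a point which is not on the conic
-/

set_option autoImplicit false

open MvPolynomial

namespace Pool.Agent.J4H89.LC

open Pool.Agent.J4H13.BC Pool.Agent.J4H13.LA Pool.Agent.J4H13.BD Pool.Agent.J4H13.LC

/-- `Good` can be checked in an extension -/
lemma good_of_map {K Ω : Type} [Field K] [Algebra ℂ K] [Field Ω] [Algebra ℂ Ω]
    (φ : K →ₐ[ℂ] Ω) {x y v : K} (h : Good (φ x) (φ y) (φ v)) : Good x y v := by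
  obtain ⟨L, hx, hy, hv, m, ⟨ψ⟩⟩ := h
  refine ⟨L.comap φ, hx, hy, hv, m, ⟨ψ.comp ?_⟩⟩
  exact (φ.comp (L.comap φ).val).codRestrict L.toSubalgebra fun z => z.2

/-- factorization of a binary quadratic form -/
lemma factor_two (A B D : ℂ) (h : A ≠ 0 ∨ B ≠ 0 ∨ D ≠ 0) :
    ∃ α₁ β₁ α₂ β₂ : ℂ, (α₁ ≠ 0 ∨ β₁ ≠ 0) ∧ (α₂ ≠ 0 ∨ β₂ ≠ 0) ∧ A = α₁ * α₂ ∧
      B = α₁ * β₂ + α₂ * β₁ ∧ D = β₁ * β₂ := by
  by_cases hA : A = 0
  · refine ⟨0, 1, B, D, Or.inr one_ne_zero, ?_, by rw [hA, zero_mul], by ring, by ring⟩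
    rcases h with h | h
    · exact absurd hA h
    · exact h
  · obtain ⟨δ, hδ⟩ := IsAlgClosed.exists_pow_nat_eq (B ^ 2 - 4 * A * D) (n := 2) two_pos
    refine ⟨A, -(A * ((-B + δ) / (2 * A))), 1, -((-B - δ) / (2 * A)), Or.inl hA,
      Or.inl one_ne_zero, (mul_one A).symm, ?_, ?_⟩
    · field_simp
      ring
    · field_simp
      linear_combination hδ

section

variable {K : Type} [Field K] [Algebra ℂ K] {x y : K} (hxy : AlgebraicIndependent ℂ ![x, y])
  {m : Fin 3 → V3} (hm : LinearIndependent ℂ m)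

include hxy hm

/-- nonzero linear polynomials in the ratio do not vanish -/
lemma lin_ratio_ne {α β : ℂ} (h : α ≠ 0 ∨ β ≠ 0) :
    algebraMap ℂ K α * (ev (gp x y) (m 1) / ev (gp x y) (m 0)) + algebraMap ℂ K β ≠ 0 := by
  have hM0 := M_ne hxy hm 0
  intro h0
  have h1 : ev (gp x y) (β • m 0 + α • m 1) = 0 := by
    rw [ev_add, ev_smul, ev_smul]
    field_simp at h0
    linear_combination h0
  have h2 : β • m 0 + α • m 1 ≠ 0 := by
    intro h3
    have h4 := Fintype.linearIndependent_iff.1 hm ![β, α, 0] (by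
      rw [Fin.sum_univ_three]
      simpa using h3)
    rcases h with h | h
    · exact h (h4 1)
    · exact h (h4 0)
  exact ev_gp_ne_zero hxy h2 h1

theorem good_conic [IsAlgClosed K] {F : P3} (hF : F.IsHomogeneous 2)
    (hN : ∀ w : V3, w ≠ 0 → ¬ lin w ∣ F) (hW : F ∉ IW (Submodule.span ℂ {m 0, m 1}))
    {k : ℕ} {l : Fin (2 * k) → V3} (hl0 : ∀ i, l i ≠ 0)
    (hl : ∀ i, l i ∈ Submodule.span ℂ {m 0, m 1}) {v : K} (hv0 : v ≠ 0)
    (hv : v ^ 2 = aeval (gp x y) F * ∏ i, ev (gp x y) (l i)) : Good x y v := by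
  classical
  obtain ⟨q₀₀, q₁₁, κ, q₀₁, q₀₂, q₁₂, hq⟩ := Pool.Agent.J4H64.LC.quad_six hm hF
  have hm0 : lin (m 0) ∈ IW (Submodule.span ℂ {m 0, m 1}) :=
    lin_mem_IW (Submodule.subset_span (by simp))
  have hm1 : lin (m 1) ∈ IW (Submodule.span ℂ {m 0, m 1}) :=
    lin_mem_IW (Submodule.subset_span (by simp))
  have hκ : κ ≠ 0 := by
    intro h0
    apply hW
    rw [hq, h0, C_0, zero_mul, add_zero, sq, sq]
    refine add_mem (add_mem (add_mem (add_mem ?_ ?_) ?_) ?_) ?_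
    · exact Ideal.mul_mem_left _ _ (Ideal.mul_mem_left _ _ hm0)
    · exact Ideal.mul_mem_left _ _ (Ideal.mul_mem_left _ _ hm1)
    · exact Ideal.mul_mem_left _ _ (Ideal.mul_mem_left _ _ hm1)
    · exact Ideal.mul_mem_left _ _ (Ideal.mul_mem_right _ _ hm0)
    · exact Ideal.mul_mem_left _ _ (Ideal.mul_mem_right _ _ hm1)
  -- the discriminant
  have hdisc : (q₁₂ ^ 2 - 4 * κ * q₁₁ ≠ 0 ∨ 2 * q₀₂ * q₁₂ - 4 * κ * q₀₁ ≠ 0 ∨
      q₀₂ ^ 2 - 4 * κ * q₀₀ ≠ 0) := by
    by_contra hcon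
    push Not at hcon
    obtain ⟨h1, h2, h3⟩ := hcon
    have hw : (2 * κ) • m 2 + q₀₂ • m 0 + q₁₂ • m 1 ≠ 0 := by
      intro h0
      have h4 := Fintype.linearIndependent_iff.1 hm ![q₀₂, q₁₂, 2 * κ] (by
        rw [Fin.sum_univ_three]
        change q₀₂ • m 0 + q₁₂ • m 1 + (2 * κ) • m 2 = 0
        rw [← h0]
        abel)
      have h5 : 2 * κ = 0 := h4 2
      exact hκ ((mul_eq_zero.1 h5).resolve_left two_ne_zero)
    apply hN _ hw
    have h6 : (C (4 * κ) : P3) * F = lin ((2 * κ) • m 2 + q₀₂ • m 0 + q₁₂ • m 1) ^ 2 := by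
      rw [lin_add, lin_add, lin_smul, lin_smul, lin_smul, hq]
      have e1 : (C q₁₂ : P3) ^ 2 = 4 * C κ * C q₁₁ := by
        have : q₁₂ ^ 2 = 4 * κ * q₁₁ := by linear_combination h1
        rw [← C_pow, this, C_mul, C_mul]
        rfl
      have e2 : (2 : P3) * C q₀₂ * C q₁₂ = 4 * C κ * C q₀₁ := by
        have : 2 * q₀₂ * q₁₂ = 4 * κ * q₀₁ := by linear_combination h2
        have h7 := congrArg (C : ℂ → P3) this
        rw [C_mul, C_mul, C_mul, C_mul] at h7
        exact h7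
      have e3 : (C q₀₂ : P3) ^ 2 = 4 * C κ * C q₀₀ := by
        have : q₀₂ ^ 2 = 4 * κ * q₀₀ := by linear_combination h3
        rw [← C_pow, this, C_mul, C_mul]
        rfl
      have e4 : (C (4 * κ) : P3) = 4 * C κ := by
        rw [C_mul]
        rfl
      have e5 : (C (2 * κ) : P3) = 2 * C κ := by
        rw [C_mul]
        rfl
      rw [e4, e5]
      linear_combination (-lin (m 1) ^ 2) * e1 - lin (m 0) * lin (m 1) * e2 -
        lin (m 0) ^ 2 * e3
    have h7 : F = C ((4 * κ)⁻¹) * (C (4 * κ) * F) := by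
      rw [← mul_assoc, ← C_mul, inv_mul_cancel₀ (mul_ne_zero (by norm_num) hκ), C_1, one_mul]
    rw [h7, h6]
    exact Dvd.dvd.mul_left (dvd_pow_self _ two_ne_zero) _
  obtain ⟨α₁, β₁, α₂, β₂, hne1, hne2, hA, hB, hD⟩ := factor_two _ _ _ hdisc
  -- the coordinates
  have hM0 := M_ne hxy hm 0
  have hr1 := lin_ratio_ne hxy hm hne1
  have hr2 := lin_ratio_ne hxy hm hne2
  obtain ⟨M₀, hM₀⟩ : ∃ M₀, M₀ = ev (gp x y) (m 0) := ⟨_, rfl⟩
  obtain ⟨s, hs⟩ : ∃ s, s = ev (gp x y) (m 1) / ev (gp x y) (m 0) := ⟨_, rfl⟩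
  obtain ⟨u, hu⟩ : ∃ u, u = ev (gp x y) (m 2) / ev (gp x y) (m 0) := ⟨_, rfl⟩
  rw [← hs] at hr1 hr2
  have hM1 : ev (gp x y) (m 1) = M₀ * s := by
    rw [hs, ← hM₀]
    field_simp [hM₀ ▸ hM0]
  have hM2 : ev (gp x y) (m 2) = M₀ * u := by
    rw [hu, ← hM₀]
    field_simp [hM₀ ▸ hM0]
  rw [← hM₀] at hM0
  let a := algebraMap ℂ K
  have hr1' : a α₁ * s + a β₁ ≠ 0 := hr1
  -- the two points on the line
  obtain ⟨ρ, hρ⟩ := IsAlgClosed.exists_pow_nat_eq
    ((a α₁ * s + a β₁) * (a α₂ * s + a β₂)) (n := 2) two_pos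
  have hρ0 : ρ ≠ 0 := by
    rintro rfl
    rw [zero_pow two_ne_zero] at hρ
    exact mul_ne_zero hr1 hr2 hρ.symm
  obtain ⟨σ, hσ⟩ : ∃ σ : K, ∀ T : K, s ∈ IntermediateField.adjoin ℂ {σ, T} ∧
      ρ ∈ IntermediateField.adjoin ℂ {σ, T} := by
    by_cases hprop : α₁ * β₂ = α₂ * β₁
    · -- a square
      obtain ⟨c, hc⟩ : ∃ c : ℂ, α₂ = c * α₁ ∧ β₂ = c * β₁ := by
        rcases hne1 with h | h
        · refine ⟨α₂ / α₁, ?_, ?_⟩
          · field_simp
          · field_simp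
            linear_combination hprop
        · refine ⟨β₂ / β₁, ?_, ?_⟩
          · field_simp
            linear_combination -hprop
          · field_simp
      obtain ⟨e, he⟩ := IsAlgClosed.exists_pow_nat_eq c (n := 2) two_pos
      refine ⟨s, fun T => ?_⟩
      have hsT : s ∈ IntermediateField.adjoin ℂ {s, T} :=
        IntermediateField.subset_adjoin _ _ (by simp)
      refine ⟨hsT, ?_⟩
      have h1 : ρ ^ 2 = (a e * (a α₁ * s + a β₁)) ^ 2 := by
        rw [hρ, hc.1, hc.2, mul_pow, ← map_pow, he, map_mul, map_mul]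
        ring
      have h2 : a e * (a α₁ * s + a β₁) ∈ IntermediateField.adjoin ℂ {s, T} :=
        mul_mem (IntermediateField.algebraMap_mem _ _) (add_mem (mul_mem
          (IntermediateField.algebraMap_mem _ _) hsT) (IntermediateField.algebraMap_mem _ _))
      rcases sq_eq_sq_iff_eq_or_eq_neg.1 h1 with h | h
      · rw [h]
        exact h2
      · rw [h]
        exact neg_mem h2
    · refine ⟨ρ / (a α₁ * s + a β₁), fun T => ?_⟩
      obtain ⟨σ, hσ⟩ : ∃ σ, σ = ρ / (a α₁ * s + a β₁) := ⟨_, rfl⟩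
      rw [← hσ]
      have hσT : σ ∈ IntermediateField.adjoin ℂ {σ, T} :=
        IntermediateField.subset_adjoin _ _ (by simp)
      have h1 : σ ^ 2 * (a α₁ * s + a β₁) = a α₂ * s + a β₂ := by
        rw [hσ, div_pow, hρ]
        field_simp
      have h2 : σ ^ 2 * a α₁ - a α₂ ≠ 0 := by
        intro h3
        apply hprop
        have h4 : (σ ^ 2 * a α₁) * (a α₁ * s + a β₁) = a α₁ * (a α₂ * s + a β₂) := by
          rw [← h1]
          ring
        have h5 : σ ^ 2 * a α₁ = a α₂ := by linear_combination h3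
        rw [h5] at h4
        have h6 : a (α₁ * β₂) = a (α₂ * β₁) := by
          rw [map_mul, map_mul]
          linear_combination -h4
        exact (algebraMap ℂ K).injective h6
      have h3 : s = (a β₂ - σ ^ 2 * a β₁) / (σ ^ 2 * a α₁ - a α₂) := by
        rw [eq_div_iff h2]
        linear_combination h1
      have h4 : s ∈ IntermediateField.adjoin ℂ {σ, T} := by
        rw [h3]
        exact div_mem (sub_mem (IntermediateField.algebraMap_mem _ _) (mul_mem (pow_mem hσT 2)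
          (IntermediateField.algebraMap_mem _ _))) (sub_mem (mul_mem (pow_mem hσT 2)
          (IntermediateField.algebraMap_mem _ _)) (IntermediateField.algebraMap_mem _ _))
      refine ⟨h4, ?_⟩
      have h5 : ρ = σ * (a α₁ * s + a β₁) := by
        rw [hσ]
        field_simp
      rw [h5]
      exact mul_mem hσT (add_mem (mul_mem (IntermediateField.algebraMap_mem _ _) h4)
        (IntermediateField.algebraMap_mem _ _))
  have haκ : a κ ≠ 0 := (map_ne_zero a).2 hκ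
  obtain ⟨u₁, hu₁⟩ : ∃ u₁, u₁ = (-(a q₀₂ + a q₁₂ * s) + ρ) / (2 * a κ) := ⟨_, rfl⟩
  obtain ⟨u₂, hu₂⟩ : ∃ u₂, u₂ = (-(a q₀₂ + a q₁₂ * s) - ρ) / (2 * a κ) := ⟨_, rfl⟩
  have h2K : (2 : K) ≠ 0 := by
    have : (2 : K) = a 2 := (map_ofNat a 2).symm
    rw [this]
    exact (map_ne_zero a).2 two_ne_zero
  have hquad : aeval (gp x y) F = M₀ ^ 2 * (a κ * (u - u₁) * (u - u₂)) := by
    have h1 : aeval (gp x y) F = a q₀₀ * M₀ ^ 2 + a q₁₁ * (M₀ * s) ^ 2 + a κ * (M₀ * u) ^ 2 +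
        a q₀₁ * (M₀ * (M₀ * s)) + a q₀₂ * (M₀ * (M₀ * u)) +
        a q₁₂ * ((M₀ * s) * (M₀ * u)) := by
      rw [hq]
      simp only [map_add, map_mul, map_pow, aeval_C, aeval_lin, hM1, hM2, ← hM₀]
      rfl
    rw [h1, hu₁, hu₂]
    have h2 : ρ ^ 2 = (a q₀₂ + a q₁₂ * s) ^ 2 -
        4 * a κ * (a q₀₀ + a q₀₁ * s + a q₁₁ * s ^ 2) := by
      rw [hρ]
      have eA := congrArg a hA
      have eB := congrArg a hB
      have eD := congrArg a hD
      simp only [map_sub, map_mul, map_pow, map_add, map_ofNat] at eA eB eD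
      linear_combination (-s ^ 2) * eA - s * eB - eD
    field_simp
    linear_combination h2
  obtain ⟨v', hv'⟩ : ∃ v', v' = v / M₀ ^ (k + 1) := ⟨_, rfl⟩
  have hv'0 : v' ≠ 0 := by
    rw [hv']
    exact div_ne_zero hv0 (pow_ne_zero _ hM0)
  have huu : u - u₁ ≠ 0 := by
    intro h0
    rw [hquad, h0, mul_zero, zero_mul, mul_zero, zero_mul] at hv
    exact hv0 (pow_eq_zero_iff two_ne_zero |>.1 hv)
  obtain ⟨T, hT⟩ : ∃ T, T = v' / (u - u₁) := ⟨_, rfl⟩
  obtain ⟨hsL, hρL⟩ := hσ T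
  have hTL : T ∈ IntermediateField.adjoin ℂ {σ, T} :=
    IntermediateField.subset_adjoin _ _ (by simp)
  obtain ⟨f, hf, hf0, hprod⟩ := prod_mem hxy hm (L := IntermediateField.adjoin ℂ {σ, T})
    (by rw [← hs]; exact hsL) hl0 Finset.univ fun i _ => hl i
  rw [Finset.card_univ, Fintype.card_fin, ← hM₀] at hprod
  have hT2 : T ^ 2 * (u - u₁) = f * a κ * (u - u₂) := by
    rw [hT, hv', div_pow, div_pow, hv, hquad, hprod]
    field_simp
    ring
  have h2κ : (2 * a κ) ∈ IntermediateField.adjoin ℂ {σ, T} := by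
    have : (2 * a κ) = a (2 * κ) := by
      rw [map_mul, map_ofNat]
    rw [this]
    exact IntermediateField.algebraMap_mem _ _
  have hb : (a q₀₂ + a q₁₂ * s) ∈ IntermediateField.adjoin ℂ {σ, T} :=
    add_mem (IntermediateField.algebraMap_mem _ _) (mul_mem
      (IntermediateField.algebraMap_mem _ _) hsL)
  have hu1L : u₁ ∈ IntermediateField.adjoin ℂ {σ, T} := by
    rw [hu₁]
    exact div_mem (add_mem (neg_mem hb) hρL) h2κ
  have hu2L : u₂ ∈ IntermediateField.adjoin ℂ {σ, T} := by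
    rw [hu₂]
    exact div_mem (sub_mem (neg_mem hb) hρL) h2κ
  have hne : T ^ 2 - f * a κ ≠ 0 := by
    intro h0
    have h1 : f * a κ * (u₁ - u₂) = 0 := by
      linear_combination (u - u₁) * h0 - hT2
    rcases mul_eq_zero.1 h1 with h | h
    · exact mul_ne_zero hf0 haκ h
    · rw [hu₁, hu₂] at h
      field_simp at h
      have h3 : 2 * ρ = 0 := by linear_combination h
      exact (mul_ne_zero h2K hρ0) h3
  have huL : u ∈ IntermediateField.adjoin ℂ {σ, T} := by
    have h1 : u = (T ^ 2 * u₁ - f * a κ * u₂) / (T ^ 2 - f * a κ) := by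
      rw [eq_div_iff hne]
      linear_combination hT2
    rw [h1]
    exact div_mem (sub_mem (mul_mem (pow_mem hTL 2) hu1L) (mul_mem (mul_mem hf
      (IntermediateField.algebraMap_mem _ _)) hu2L)) (sub_mem (pow_mem hTL 2) (mul_mem hf
      (IntermediateField.algebraMap_mem _ _)))
  obtain ⟨h0, hx, hy⟩ := lin_mem hxy hm (L := IntermediateField.adjoin ℂ {σ, T})
    (by rw [← hs]; exact hsL) (by rw [← hu]; exact huL)
  refine ⟨_, hx, hy, ?_, 2, embed_of_two hxy hx hy⟩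
  have h2 : v = T * (u - u₁) * M₀ ^ (k + 1) := by
    rw [hT, hv']
    field_simp
  rw [h2]
  rw [← hM₀] at h0
  exact mul_mem (mul_mem hTL (sub_mem huL hu1L)) (pow_mem h0 _)

end

/-- **RAT** -/
theorem t_RAT : S_RAT := by
  intro K _ _ x y hxy F hF hN k l hl0 W hW hFW hl v hv0 hv
  classical
  -- a basis
  obtain ⟨a, b, hab, ha, hb⟩ : ∃ a b : V3, LinearIndependent ℂ ![a, b] ∧ a ∈ W ∧ b ∈ W := by
    let B := Module.finBasisOfFinrankEq ℂ W hW
    refine ⟨B 0, B 1, ?_, (B 0).2, (B 1).2⟩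
    have h1 := B.linearIndependent.map' W.subtype W.ker_subtype
    have h2 : (⇑W.subtype ∘ ⇑B) = ![(B 0 : V3), (B 1 : V3)] := by
      funext i
      fin_cases i <;> rfl
    rwa [h2] at h1
  have hspan : W = Submodule.span ℂ {a, b} := by
    symm
    apply Submodule.eq_of_le_of_finrank_le
    · rw [Submodule.span_le]
      intro z hz
      rcases hz with rfl | hz
      · exact ha
      · rw [Set.mem_singleton_iff] at hz
        rw [hz]
        exact hb
    · have h1 := finrank_span_eq_card hab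
      have h2 : Set.range ![a, b] = {a, b} := by
        rw [Matrix.range_cons, Matrix.range_cons, Matrix.range_empty, Set.union_empty]
        rfl
      rw [h2, Fintype.card_fin] at h1
      rw [h1, hW]
  obtain ⟨w, hw⟩ := exists_linearIndependent_snoc_of_lt_finrank (R := ℂ) (M := V3) hab (by
    simp)
  have hm : LinearIndependent ℂ ![a, b, w] := by
    have h1 : (Fin.snoc ![a, b] w : Fin 3 → V3) = ![a, b, w] := by
      funext i
      fin_cases i <;> rfl
    rw [← h1]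
    exact hw
  let Ω := AlgebraicClosure K
  let φ : K →ₐ[ℂ] Ω := IsScalarTower.toAlgHom ℂ K Ω
  apply good_of_map φ
  have hxy' : AlgebraicIndependent ℂ ![φ x, φ y] := by
    have h1 := hxy.map' (f := φ) φ.injective
    have h2 : (φ ∘ ![x, y]) = ![φ x, φ y] := by
      funext i
      fin_cases i <;> rfl
    rwa [h2] at h1
  have hgp : gp (φ x) (φ y) = fun i => φ (gp x y i) := by
    funext i
    fin_cases i
    · exact (map_one φ).symm
    · rfl
    · rfl
  have hev : ∀ u : V3, ev (gp (φ x) (φ y)) u = φ (ev (gp x y) u) := by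
    intro u
    rw [hgp, ← aeval_lin, ← aeval_lin, MvPolynomial.comp_aeval_apply]
  refine good_conic hxy' hm hF hN.1 ?_ hl0 ?_ ((map_ne_zero φ).2 hv0) ?_ (k := k)
  · change F ∉ IW (Submodule.span ℂ {a, b})
    rw [← hspan]
    exact hFW
  · intro i
    change l i ∈ Submodule.span ℂ {a, b}
    rw [← hspan]
    exact hl i
  · rw [← map_pow, hv, map_mul, map_prod]
    congr 1
    · rw [hgp, MvPolynomial.comp_aeval_apply]
    · exact Finset.prod_congr rfl fun i _ => (hev (l i)).symm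

end Pool.Agent.J4H89.LC
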